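import Pool.Agent.H37.CTT.Stmts
import Pool.Agent.H17.CTN.N41
import Pool.Agent.H72.CTN.FN2

/-!
# Board `ctt`: change of basis for the roots of `E` (rows SC2, SC3)
-/

set_option autoImplicit false

namespace Pool.CND

open Finset

namespace SCB

theorem sB_eq {L : Type} [Field L] {p f q : ℕ} (hp : p.Prime) [CharP L p] (hq : q = p ^ f)
    (a x y : L) : sB q a x y = x ^ q ^ 2 * y - x * y ^ q ^ 2 +
      (x ^ q ^ 3 * y ^ q ^ 1 - x ^ q ^ 1 * y ^ q ^ 3) -
      a * (x ^ q ^ 2 * y ^ q ^ 1 - x ^ q ^ 1 * y ^ q ^ 2) := by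
  have : Fact p.Prime := ⟨hp⟩
  have h1 : (x ^ q ^ 2 * y - x * y ^ q ^ 2) ^ q =
      x ^ q ^ 3 * y ^ q ^ 1 - x ^ q ^ 1 * y ^ q ^ 3 := by
    have e : (x ^ q ^ 2 * y - x * y ^ q ^ 2) ^ q =
        (x ^ q ^ 2 * y) ^ q - (x * y ^ q ^ 2) ^ q := by
      rw [hq]
      exact sub_pow_char_pow (p := p) (n := f) (x ^ (p ^ f) ^ 2 * y) (x * y ^ (p ^ f) ^ 2)
    rw [e, mul_pow, mul_pow, ← pow_mul, ← pow_mul, ← pow_succ, pow_one]
  unfold sB
  rw [h1, pow_one]

/-- the form on combinations of the roots -/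
theorem sB_sum {F L : Type} [Field F] [Field L] (κ : F →+* L) {p f q : ℕ} (hp : p.Prime)
    [CharP L p] (hq : q = p ^ f) (hF : Nat.card F = q) (a : L) (X : Fin 4 → L)
    (M : Matrix (Fin 4) (Fin 4) F) (hM : ∀ i j, sB q a (X i) (X j) = κ (M i j))
    (c d : Fin 4 → F) :
    sB q a (∑ i, κ (c i) * X i) (∑ i, κ (d i) * X i) = κ (∑ i, ∑ j, c i * M i j * d j) := by
  have : Fact p.Prime := ⟨hp⟩
  have : Finite F := Nat.finite_of_card_ne_zero (by rw [hF, hq]; exact pow_ne_zero _ hp.ne_zero)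
  have := Fintype.ofFinite F
  have hFq : Fintype.card F = q := by rw [← Nat.card_eq_fintype_card, hF]
  have hpow : ∀ (c : Fin 4 → F) (l : ℕ), (∑ j, κ (c j) * X j) ^ q ^ l =
      ∑ j, κ (c j) * X j ^ q ^ l := by
    intro c l
    have e1 : q ^ l = p ^ (f * l) := by rw [hq, pow_mul]
    rw [e1, sum_pow_char_pow]
    refine Finset.sum_congr rfl fun j _ => ?_
    rw [mul_pow, ← map_pow, ← e1, ← hFq, FiniteField.pow_card_pow]
  have hprod : ∀ u v : Fin 4 → L, (∑ i, κ (c i) * u i) * (∑ j, κ (d j) * v j) =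
      ∑ i, ∑ j, κ (c i) * κ (d j) * (u i * v j) := by
    intro u v
    rw [Finset.sum_mul_sum]
    refine Finset.sum_congr rfl fun i _ => Finset.sum_congr rfl fun j _ => ?_
    ring
  rw [sB_eq hp hq, hpow, hpow, hpow, hpow, hpow, hpow]
  have h1 : ∀ i j, κ (M i j) = X i ^ q ^ 2 * X j - X i * X j ^ q ^ 2 +
      (X i ^ q ^ 3 * X j ^ q ^ 1 - X i ^ q ^ 1 * X j ^ q ^ 3) -
      a * (X i ^ q ^ 2 * X j ^ q ^ 1 - X i ^ q ^ 1 * X j ^ q ^ 2) := by
    intro i j
    rw [← hM, sB_eq hp hq]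
  rw [hprod (fun i => X i ^ q ^ 2) X, hprod X (fun i => X i ^ q ^ 2),
    hprod (fun i => X i ^ q ^ 3) (fun i => X i ^ q ^ 1),
    hprod (fun i => X i ^ q ^ 1) (fun i => X i ^ q ^ 3),
    hprod (fun i => X i ^ q ^ 2) (fun i => X i ^ q ^ 1),
    hprod (fun i => X i ^ q ^ 1) (fun i => X i ^ q ^ 2)]
  simp only [map_sum, map_mul, h1, Finset.mul_sum, ← Finset.sum_sub_distrib,
    ← Finset.sum_add_distrib]
  refine Finset.sum_congr rfl fun i _ => Finset.sum_congr rfl fun j _ => ?_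
  ring

theorem basis (p : ℕ) (k F L : Type) [Field k] [Field F] [Algebra F k] [Field L]
    [Algebra k L] (f q : ℕ) (t a b : L) (X : Fin 4 → L)
    (G₀ : Subgroup (Matrix.SpecialLinearGroup (Fin 4) F)) (ρ : G₀ →* (L ≃ₐ[k] L))
    (M h : Matrix (Fin 4) (Fin 4) F) (hp : p.Prime) (hch : CharP k p)
    (hq : q = p ^ f) (hF : Nat.card F = q)
    (hrel0 : ∀ i, X i ^ q ^ 4 - a ^ q * X i ^ q ^ 3 - b * X i ^ q ^ 2 - a * X i ^ q + X i = 0)
    (hind : ∀ c : Fin 4 → F, ∑ i, cst k F L (c i) * X i = 0 → c = 0)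
    (htr : Transcendental k t)
    (hM : ∀ i j, sB q a (X i) (X j) = cst k F L (M i j))
    (hG : ∀ g ∈ G₀, g.1.transpose * M * g.1 = M)
    (hC : NCover k F L t X G₀ ρ) (hh : h.det ≠ 0) (hhM : h.transpose * M * h = J4s F) :
    ∃ (G₁ : Subgroup (Matrix.SpecialLinearGroup (Fin 4) F)) (ρ₁ : G₁ →* (L ≃ₐ[k] L)),
      SpR k F L q t a b (fun i => ∑ j, cst k F L (h j i) * X j) ∧
      NCover k F L t (fun i => ∑ j, cst k F L (h j i) * X j) G₁ ρ₁ ∧ G₁ ≤ Sp4 F := by
  have : Fact p.Prime := ⟨hp⟩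
  have : CharP L p := charP_of_injective_algebraMap (algebraMap k L).injective p
  have : Finite F := Nat.finite_of_card_ne_zero (by rw [hF, hq]; exact pow_ne_zero _ hp.ne_zero)
  have := Fintype.ofFinite F
  have hFq : Fintype.card F = q := by rw [← Nat.card_eq_fintype_card, hF]
  set κ : F →+* L := (algebraMap k L).comp (algebraMap F k) with hκ
  have hcst : ∀ c : F, cst k F L c = κ c := fun c => rfl
  have hpow : ∀ (c : Fin 4 → F) (l : ℕ), (∑ j, κ (c j) * X j) ^ q ^ l =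
      ∑ j, κ (c j) * X j ^ q ^ l := by
    intro c l
    have e1 : q ^ l = p ^ (f * l) := by rw [hq, pow_mul]
    rw [e1, sum_pow_char_pow]
    refine Finset.sum_congr rfl fun j _ => ?_
    rw [mul_pow, ← map_pow, ← e1, ← hFq, FiniteField.pow_card_pow]
  have hrel : ∀ c : Fin 4 → F, (∑ j, κ (c j) * X j) ^ q ^ 4 -
      a ^ q * (∑ j, κ (c j) * X j) ^ q ^ 3 - b * (∑ j, κ (c j) * X j) ^ q ^ 2 -
      a * (∑ j, κ (c j) * X j) ^ q + (∑ j, κ (c j) * X j) = 0 := by
    intro c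
    have h1 := hpow c 1
    rw [pow_one] at h1
    rw [hpow, hpow, hpow, h1]
    have h2 : ∀ j, κ (c j) * X j ^ q ^ 4 - a ^ q * (κ (c j) * X j ^ q ^ 3) -
        b * (κ (c j) * X j ^ q ^ 2) - a * (κ (c j) * X j ^ q) + κ (c j) * X j = 0 := by
      intro j
      have h3 := hrel0 j
      linear_combination κ (c j) * h3
    rw [Finset.mul_sum, Finset.mul_sum, Finset.mul_sum, ← Finset.sum_sub_distrib,
      ← Finset.sum_sub_distrib, ← Finset.sum_sub_distrib, ← Finset.sum_add_distrib]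
    exact Finset.sum_eq_zero fun j _ => h2 j
  set G₁ := G₀.comap (fn2conj h hh) with hG₁
  let φ : G₁ →* G₀ := (fn2conj h hh).subgroupComap G₀
  have e : h⁻¹ * h = 1 := Matrix.nonsing_inv_mul _ (isUnit_iff_ne_zero.2 hh)
  refine ⟨G₁, ρ.comp φ, ⟨?_, ?_, htr, ?_⟩, ⟨?_, ?_⟩, ?_⟩
  · intro i
    exact hrel fun j => h j i
  · intro c hc
    have h1 : ∑ i, κ (c i) * ∑ j, κ (h j i) * X j = ∑ j, κ (h.mulVec c j) * X j := by
      simp only [Matrix.mulVec, dotProduct, map_sum, map_mul, Finset.sum_mul, Finset.mul_sum]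
      rw [Finset.sum_comm]
      refine Finset.sum_congr rfl fun l _ => Finset.sum_congr rfl fun j _ => ?_
      ring
    have h2 : h.mulVec c = 0 := hind _ (h1 ▸ hc)
    by_contra hne
    exact hh (Matrix.exists_mulVec_eq_zero_iff.1 ⟨c, hne, h2⟩)
  · intro i j
    have h1 := sB_sum κ hp hq hF a X M hM (fun l => h l i) (fun l => h l j)
    refine h1.trans ?_
    rw [hcst]
    congr 1
    rw [← hhM, Matrix.mul_apply, Finset.sum_comm]
    refine Finset.sum_congr rfl fun l _ => ?_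
    rw [Matrix.mul_apply, Finset.sum_mul]
    rfl
  · intro g i
    have hm : (φ g).1.1 = h * g.1.1 * h⁻¹ := rfl
    have hm2 : (φ g).1.1 * h = h * g.1.1 := by
      rw [hm, Matrix.mul_assoc, e, Matrix.mul_one]
    show ρ (φ g) (∑ j, κ (h j i) * X j) = ∑ j, κ (g.1.1 j i) * ∑ l, κ (h l j) * X l
    rw [fn2sum κ h g.1.1 X i, ← hm2, ← fn2sum κ (φ g).1.1 h X i, map_sum]
    refine Finset.sum_congr rfl fun j _ => ?_
    rw [map_mul, hC.act (φ g) j]
    congr 1
    exact (ρ (φ g)).commutes _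
  · have hsurj : ∀ g₀ : G₀, ∃ g : G₁, φ g = g₀ := by
      intro g₀
      obtain ⟨g', hg'⟩ := fn2conj_surj h hh g₀.1
      refine ⟨⟨g', ?_⟩, ?_⟩
      · rw [hG₁, Subgroup.mem_comap, hg']
        exact g₀.2
      · exact Subtype.ext hg'
    have hinj : ∀ g : G₁, φ g = 1 → g = 1 := by
      intro g hg
      apply Subtype.ext
      exact fn2conj_inj h hh g.1 (congrArg Subtype.val hg)
    refine ⟨?_, hC.cov.trans, ?_, ?_⟩
    · rw [injective_iff_map_eq_one]
      intro g hg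
      apply hinj
      apply hC.cov.inj
      rw [map_one]
      exact hg
    · intro x
      rw [← hC.cov.fixed x]
      constructor
      · intro hx g₀
        obtain ⟨g, rfl⟩ := hsurj g₀
        exact hx g
      · intro hx g
        exact hx (φ g)
    · intro P hP g hg
      exact hinj g (hC.cov.unram P hP (φ g) hg)
  · intro g hg
    have h1 := hG _ (Subgroup.mem_comap.1 hg)
    have h2 : (fn2conj h hh g).1 = h * g.1 * h⁻¹ := rfl
    rw [h2] at h1
    show g.1.transpose * J4s F * g.1 = J4s F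
    rw [← hhM]
    have h3 : h * g.1 * h⁻¹ * h = h * g.1 := by
      rw [Matrix.mul_assoc, e, Matrix.mul_one]
    have h4 : h.transpose * ((h * g.1 * h⁻¹).transpose * M * (h * g.1 * h⁻¹)) * h =
        (h * g.1 * h⁻¹ * h).transpose * M * (h * g.1 * h⁻¹ * h) := by
      rw [Matrix.transpose_mul (h * g.1 * h⁻¹) h]
      simp only [Matrix.mul_assoc]
    rw [h1, h3, Matrix.transpose_mul] at h4
    refine Eq.trans ?_ h4.symm
    simp only [Matrix.mul_assoc]

end SCB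

end Pool.CND
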