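import Pool.Agent.H22.CTT.Bas
import Pool.Agent.H40.CTO.P41

/-!
Row SC3 of the board `ctt`: the cover (I) and the orders of the roots (adapted from `Pool/Agent/H40/CTO/P41.lean`)
-/

set_option autoImplicit false

namespace Pool.CND

open Finset

theorem sc3_aux (A B o : ℤ) (hAB : 1 ≤ A - B) (ho : o ≤ -1) : A * o + 1 ≤ B * o := by
  nlinarith

theorem sc3_aux2 (A o : ℤ) (hA : 2 ≤ A) (ho : 1 ≤ o) : o + 1 ≤ A * o := by
  nlinarith

open N41 P41 in
theorem sc3_thm (hEXI : S_EXI) (hSC1 : S_SC1) (hSC0 : S_SC0) : S_SC3 := by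
  classical
  intro p k F _ _ _ _ f q hp hp2 hch hf hq hF
  have hp3 : 3 ≤ p := by
    have := hp.two_le
    omega
  have hq3 : 3 ≤ q := by
    rw [hq]
    calc 3 ≤ p := hp3
      _ = p ^ 1 := (pow_one p).symm
      _ ≤ p ^ f := Nat.pow_le_pow_right hp.pos hf
  have hq2 : 2 ≤ q := by omega
  have hq0 : q ≠ 0 := by omega
  have : Fact p.Prime := ⟨hp⟩
  have : Finite F := Nat.finite_of_card_ne_zero (by omega)
  -- existence
  obtain ⟨L, iL, iA, t, X, G₀, ρ, hrel0, hind, htr, hC⟩ := FN1.cover p k F f q 4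
    (fun l => if l = 0 then 1 else if l = 2 then -Polynomial.X else -1) (by omega) (by simp) hp
    hch hf hq hF
  have hR : ∀ i, X i ^ q ^ 4 - X i ^ q ^ 3 - t * X i ^ q ^ 2 - X i ^ q + X i = 0 := by
    intro i
    have h := hrel0 i
    unfold FN1.lz at h
    rw [Finset.sum_range_succ, Finset.sum_range_succ, Finset.sum_range_succ,
      Finset.sum_range_one] at h
    simp at h
    linear_combination h
  have : Finite (Matrix.SpecialLinearGroup (Fin 4) F) :=
    inferInstanceAs (Finite {A : Matrix (Fin 4) (Fin 4) F // A.det = 1})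
  have : Finite G₀ := inferInstance
  obtain ⟨hfin, hsep⟩ := TWI.fin_sep ρ t hC.cov
  obtain ⟨P, hP⟩ := hEXI k L t hC.cov.trans hfin hsep
  have ht0 : t ≠ 0 := by
    intro h
    apply htr
    rw [h]
    exact isAlgebraic_zero
  have hchL : CharP L p := charP_of_injective_algebraMap (algebraMap k L).injective p
  obtain ⟨M, hMdet, hMt, hMd, hMs, hMG⟩ := hSC1 p k F L f q t 1 Polynomial.X X G₀ ρ hp hch hf hq
    hF (by
      intro i
      rw [map_one, one_pow, one_mul, one_mul, Polynomial.aeval_X]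
      exact hR i) hind hC
  rw [map_one] at hMs
  -- notation
  obtain ⟨s, hsdef⟩ : ∃ s : ℤ, s = (q : ℤ) ^ 2 := ⟨_, rfl⟩
  have hqz : (3 : ℤ) ≤ q := by exact_mod_cast hq3
  have hs3 : 3 * (q : ℤ) ≤ s := by
    rw [hsdef]
    nlinarith
  have hs9 : 9 ≤ s := by linarith
  have e3 : (q : ℤ) ^ 3 = q * s := by rw [hsdef]; ring
  have e4 : (q : ℤ) ^ 4 = s * s := by rw [hsdef]; ring
  set T : ℤ := P.ord t with hT
  have hA0 : -t ≠ 0 := neg_ne_zero.2 ht0
  have hAo : P.ord (-t) = T := P.ord_neg t
  have hD : Dat k L p f q 1 1 (1 : k) :=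
    ⟨hp, hchL, hch, hq, hq2, le_rfl, one_ne_zero, fun h => absurd h one_ne_zero⟩
  have hrel : ∀ c : Fin 4 → F, rt (k := k) X c ^ q ^ 4 - rt (k := k) X c ^ q ^ 3 +
      (-t) * rt (k := k) X c ^ q ^ 2 - rt (k := k) X c ^ q ^ 1 + rt (k := k) X c ^ q ^ 0 = 0 := by
    intro c
    rw [rt_pow hD hF, rt_pow hD hF, rt_pow hD hF, rt_pow hD hF, rt_pow hD hF, mul_sum,
      ← sum_sub_distrib, ← sum_add_distrib, ← sum_sub_distrib, ← sum_add_distrib]
    refine sum_eq_zero fun i _ => ?_
    have h1 := hR i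
    rw [pow_one, pow_zero, pow_one]
    linear_combination cst k F L (c i) * h1
  have o4 : ∀ x : L, x ≠ 0 → P.ord (x ^ q ^ 4) = s * s * P.ord x := by
    intro x hx
    rw [P.ord_pow hx, ← e4]
    push_cast
    rfl
  have o3 : ∀ x : L, x ≠ 0 → P.ord (x ^ q ^ 3) = q * s * P.ord x := by
    intro x hx
    rw [P.ord_pow hx, ← e3]
    push_cast
    rfl
  have o2 : ∀ x : L, x ≠ 0 → P.ord ((-t) * x ^ q ^ 2) = T + s * P.ord x := by
    intro x hx
    rw [P.ord_mul _ _ hA0 (pow_ne_zero _ hx), P.ord_pow hx, hAo, hsdef]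
    push_cast
    rfl
  have o1 : ∀ x : L, x ≠ 0 → P.ord (x ^ q ^ 1) = q * P.ord x := by
    intro x hx
    rw [P.ord_pow hx, pow_one]
  have o0 : ∀ x : L, x ≠ 0 → P.ord (x ^ q ^ 0) = P.ord x := by
    intro x hx
    rw [pow_zero, pow_one]
  have g4 : ∀ (x : L) (w : ℤ), P.Ge x w → P.Ge (x ^ q ^ 4) (s * s * w) := by
    intro x w h
    have := N41.ge_pow P h (pow_ne_zero 4 hq0)
    push_cast at this
    rw [e4] at this
    exact this
  have g3 : ∀ (x : L) (w : ℤ), P.Ge x w → P.Ge (x ^ q ^ 3) (q * s * w) := by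
    intro x w h
    have := N41.ge_pow P h (pow_ne_zero 3 hq0)
    push_cast at this
    rw [e3] at this
    exact this
  have g2 : ∀ (x : L) (w : ℤ), P.Ge x w → P.Ge ((-t) * x ^ q ^ 2) (T + s * w) := by
    intro x w h
    have := P.ge_mul (P.ge_ord (-t)) (N41.ge_pow P h (pow_ne_zero 2 hq0))
    push_cast at this
    rw [hAo, ← hsdef] at this
    exact this
  have g1 : ∀ (x : L) (w : ℤ), P.Ge x w → P.Ge (x ^ q ^ 1) (q * w) := by
    intro x w h
    have := N41.ge_pow P h (pow_ne_zero 1 hq0)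
    push_cast at this
    rw [pow_one] at this
    rw [pow_one] at this ⊢
    exact this
  have g0 : ∀ (x : L) (w : ℤ), P.Ge x w → P.Ge (x ^ q ^ 0) w := by
    intro x w h
    rwa [pow_zero, pow_one]
  have hs2 : 2 ≤ s * s := by nlinarith
  have hqs2 : 2 ≤ (q : ℤ) * s := by nlinarith
  have d1 : 1 ≤ s * s - q * s := by nlinarith
  have d2 : 1 ≤ s * s - q := by nlinarith
  have d3 : 1 ≤ s * s - 1 := by nlinarith
  have kinds : ∀ c : Fin 4 → F, rt (k := k) X c ≠ 0 →
      (1 ≤ P.ord (rt (k := k) X c) ∧ (s - 1) * P.ord (rt (k := k) X c) = -T) ∨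
      (P.ord (rt (k := k) X c) ≤ -1 ∧ s * (s - 1) * P.ord (rt (k := k) X c) = T) := by
    intro c hx
    have r := hrel c
    obtain ⟨x, hxd⟩ : ∃ x : L, x = rt (k := k) X c := ⟨_, rfl⟩
    rw [← hxd] at hx r ⊢
    have n4 := pow_ne_zero (q ^ 4) hx
    have n3 := pow_ne_zero (q ^ 3) hx
    have n2 := mul_ne_zero hA0 (pow_ne_zero (q ^ 2) hx)
    have n1 := pow_ne_zero (q ^ 1) hx
    have n0 := pow_ne_zero (q ^ 0) hx
    have gx := P.ge_ord x
    rcases lt_trichotomy (P.ord x) 0 with ho | ho | ho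
    · right
      have ho1 : P.ord x ≤ -1 := by omega
      refine ⟨ho1, ?_⟩
      have a1 := sc3_aux (s * s) (q * s) (P.ord x) d1 ho1
      have a2 := sc3_aux (s * s) q (P.ord x) d2 ho1
      have a3 := sc3_aux (s * s) 1 (P.ord x) d3 ho1
      rw [one_mul] at a3
      rcases lt_trichotomy (s * s * P.ord x) (T + s * P.ord x) with h | h | h
      · exfalso
        refine no_min4 P n4 (b := -x ^ q ^ 3) (c := (-t) * x ^ q ^ 2)
          (d := -x ^ q ^ 1 + x ^ q ^ 0) (by linear_combination r) ?_ ?_ ?_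
        · rw [o4 x hx]
          exact P.ge_neg (P.ge_mono (g3 x _ gx) a1)
        · rw [o4 x hx]
          exact P.ge_mono (g2 x _ gx) (by omega)
        · rw [o4 x hx]
          exact P.ge_add (P.ge_neg (P.ge_mono (g1 x _ gx) a2)) (P.ge_mono (g0 x _ gx) a3)
      · linarith
      · exfalso
        refine no_min4 P n2 (b := -x ^ q ^ 3) (c := x ^ q ^ 4)
          (d := -x ^ q ^ 1 + x ^ q ^ 0) (by linear_combination r) ?_ ?_ ?_
        · rw [o2 x hx]
          exact P.ge_neg (P.ge_mono (g3 x _ gx) (by omega))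
        · rw [o2 x hx]
          exact P.ge_mono (g4 x _ gx) (by omega)
        · rw [o2 x hx]
          exact P.ge_add (P.ge_neg (P.ge_mono (g1 x _ gx) (by omega)))
            (P.ge_mono (g0 x _ gx) (by omega))
    · exfalso
      refine no_min4 P n2 (b := -x ^ q ^ 3) (c := x ^ q ^ 4)
        (d := -x ^ q ^ 1 + x ^ q ^ 0) (by linear_combination r) ?_ ?_ ?_
      · rw [o2 x hx, ho]
        refine P.ge_neg (P.ge_mono (g3 x _ gx) ?_)
        rw [ho]
        omega
      · rw [o2 x hx, ho]
        refine P.ge_mono (g4 x _ gx) ?_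
        rw [ho]
        omega
      · rw [o2 x hx, ho]
        refine P.ge_add (P.ge_neg (P.ge_mono (g1 x _ gx) ?_)) (P.ge_mono (g0 x _ gx) ?_)
        · rw [ho]
          omega
        · rw [ho]
          omega
    · left
      have ho1 : 1 ≤ P.ord x := by omega
      refine ⟨ho1, ?_⟩
      have a1 := sc3_aux2 (s * s) (P.ord x) hs2 ho1
      have a2 := sc3_aux2 (q * s) (P.ord x) hqs2 ho1
      have a3 := sc3_aux2 q (P.ord x) (by omega) ho1
      rcases lt_trichotomy (P.ord x) (T + s * P.ord x) with h | h | h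
      · exfalso
        refine no_min4 P n0 (b := -x ^ q ^ 3 + x ^ q ^ 4) (c := (-t) * x ^ q ^ 2)
          (d := -x ^ q ^ 1) (by linear_combination r) ?_ ?_ ?_
        · rw [o0 x hx]
          exact P.ge_add (P.ge_neg (P.ge_mono (g3 x _ gx) a2)) (P.ge_mono (g4 x _ gx) a1)
        · rw [o0 x hx]
          exact P.ge_mono (g2 x _ gx) (by omega)
        · rw [o0 x hx]
          exact P.ge_neg (P.ge_mono (g1 x _ gx) a3)
      · linarith
      · exfalso
        refine no_min4 P n2 (b := -x ^ q ^ 3) (c := x ^ q ^ 4)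
          (d := -x ^ q ^ 1 + x ^ q ^ 0) (by linear_combination r) ?_ ?_ ?_
        · rw [o2 x hx]
          exact P.ge_neg (P.ge_mono (g3 x _ gx) (by omega))
        · rw [o2 x hx]
          exact P.ge_mono (g4 x _ gx) (by omega)
        · rw [o2 x hx]
          exact P.ge_add (P.ge_neg (P.ge_mono (g1 x _ gx) (by omega)))
            (P.ge_mono (g0 x _ gx) (by omega))
  have hinj : ∀ c : Fin 4 → F, rt (k := k) X c = 0 → c = 0 := fun c h => hind c h
  have hW : ∀ (m : ℤ) (c : Fin 4 → F), c ∈ W (F := F) P X m ↔ P.Ge (rt (k := k) X c) m :=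
    fun m c => mem_W P X m c
  have fK : ∀ c : Fin 4 → F, rt (k := k) X c ≠ 0 → c ∈ W (F := F) P X 1 →
      (s - 1) * P.ord (rt (k := k) X c) = -T := by
    intro c h0 h1
    have h2 := ((hW 1 c).1 h1).resolve_left h0
    rcases kinds c h0 with h | h
    · exact h.2
    · omega
  have fN : ∀ c : Fin 4 → F, c ∉ W (F := F) P X 1 → rt (k := k) X c ≠ 0 ∧
      P.ord (rt (k := k) X c) ≤ -1 ∧ s * (s - 1) * P.ord (rt (k := k) X c) = T := by
    intro c h1
    obtain ⟨h0, h2⟩ := P.not_ge.1 (fun h => h1 ((hW 1 c).2 h))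
    rcases kinds c h0 with h | h
    · omega
    · exact ⟨h0, h⟩
  have hs1 : (0 : ℤ) < s - 1 := by omega
  have hss1 : (0 : ℤ) < s * (s - 1) := mul_pos (by omega) hs1
  -- the dimensions
  have hA3 : Module.finrank F (Fin 4 → F) ≤ Module.finrank F (W (F := F) P X 1) + 2 := by
    by_cases hall : ∀ c, c ∈ W (F := F) P X 1
    · have h1 : W (F := F) P X 1 = ⊤ := Submodule.eq_top_iff'.2 hall
      rw [h1, finrank_top]
      omega
    · push Not at hall
      obtain ⟨c₁, hc₁⟩ := hall
      obtain ⟨hy0, hyo, hk1⟩ := fN c₁ hc₁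
      have a1 := sc3_aux (s * s) (q * s) _ d1 hyo
      have a2 := sc3_aux (s * s) q _ d2 hyo
      have a3 := sc3_aux (s * s) 1 _ d3 hyo
      rw [one_mul] at a3
      have hU : ∀ c ∈ (⊤ : Submodule F (Fin 4 → F)),
          P.Ge (rt (k := k) X c) (P.ord (rt (k := k) X c₁)) := by
        intro c _
        by_cases h0 : rt (k := k) X c = 0
        · exact Or.inl h0
        · right
          rcases kinds c h0 with h | h
          · omega
          · have h5 := h.2
            rw [← hk1] at h5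
            exact (mul_left_cancel₀ hss1.ne' h5).ge
      have h1 := step P hq2 hF ⊤ (W (F := F) P X 1) X c₁ hy0 hU
        (by
          intro c _ h
          by_contra h5
          obtain ⟨b0, b1, b2⟩ := fN c h5
          rw [← hk1] at b2
          have b3 := mul_left_cancel₀ hss1.ne' b2
          have b4 := h.resolve_left b0
          omega) 2 (by omega)
        (by
          intro c hc a ha
          have r := hrel c
          have r₁ := hrel c₁
          have gx := hU c hc
          have gy := P.ge_ord (rt (k := k) X c₁)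
          refine frob_inj hp hq hq0 (u := 2) (d := 2) ?_
          refine res P hp hq hq0 2 4 (A := -t) (B := 1)
            (Rx := -rt (k := k) X c ^ q ^ 3 - rt (k := k) X c ^ q ^ 1 + rt (k := k) X c ^ q ^ 0)
            (Ry := -rt (k := k) X c₁ ^ q ^ 3 - rt (k := k) X c₁ ^ q ^ 1 +
              rt (k := k) X c₁ ^ q ^ 0) (m := s * s * P.ord (rt (k := k) X c₁))
            hy0 hA0 ?_ ?_ ?_ ?_ (by linear_combination r) (by linear_combination r₁) ha
          · rw [o2 _ hy0]
            linarith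
          · rw [one_mul]
            exact g4 _ _ gy
          · exact P.ge_add (P.ge_sub (P.ge_neg (P.ge_mono (g3 _ _ gx) a1))
              (P.ge_mono (g1 _ _ gx) a2)) (P.ge_mono (g0 _ _ gx) a3)
          · exact P.ge_add (P.ge_sub (P.ge_neg (P.ge_mono (g3 _ _ gy) a1))
              (P.ge_mono (g1 _ _ gy) a2)) (P.ge_mono (g0 _ _ gy) a3))
      rwa [finrank_top] at h1
  have hA1 : Module.finrank F (W (F := F) P X 1) ≤ 2 := by
    by_cases hall : ∀ c ∈ W (F := F) P X 1, c = 0
    · have h1 : W (F := F) P X 1 = ⊥ := (Submodule.eq_bot_iff _).2 hall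
      rw [h1, finrank_bot]
      omega
    · push Not at hall
      obtain ⟨c₁, hc₁, hc0⟩ := hall
      have hy0 : rt (k := k) X c₁ ≠ 0 := fun h => hc0 (hinj _ h)
      have hyo := ((hW 1 c₁).1 hc₁).resolve_left hy0
      have hk1 := fK c₁ hy0 hc₁
      have a1 := sc3_aux2 (s * s) _ hs2 hyo
      have a2 := sc3_aux2 (q * s) _ hqs2 hyo
      have a3 := sc3_aux2 q _ (by omega) hyo
      have hsame : ∀ c ∈ W (F := F) P X 1, rt (k := k) X c ≠ 0 →
          P.ord (rt (k := k) X c) = P.ord (rt (k := k) X c₁) := by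
        intro c hc h0
        have h := fK c h0 hc
        rw [← hk1] at h
        exact mul_left_cancel₀ hs1.ne' h
      have hU : ∀ c ∈ W (F := F) P X 1,
          P.Ge (rt (k := k) X c) (P.ord (rt (k := k) X c₁)) := by
        intro c hc
        by_cases h0 : rt (k := k) X c = 0
        · exact Or.inl h0
        · exact Or.inr (hsame c hc h0).ge
      have h1 := step P hq2 hF (W (F := F) P X 1) ⊥ X c₁ hy0 hU
        (by
          intro c hc h
          rw [Submodule.mem_bot]
          by_contra h5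
          have h0 : rt (k := k) X c ≠ 0 := fun h => h5 (hinj _ h)
          have h6 := hsame c hc h0
          have h7 := h.resolve_left h0
          omega) 2 (by omega)
        (by
          intro c hc a ha
          have r := hrel c
          have r₁ := hrel c₁
          have gx := hU c hc
          have gy := P.ge_ord (rt (k := k) X c₁)
          refine frob_inj hp hq hq0 (u := 0) (d := 2) ?_
          rw [zero_add]
          refine res P hp hq hq0 0 2 (A := 1) (B := -t)
            (Rx := rt (k := k) X c ^ q ^ 4 - rt (k := k) X c ^ q ^ 3 - rt (k := k) X c ^ q ^ 1)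
            (Ry := rt (k := k) X c₁ ^ q ^ 4 - rt (k := k) X c₁ ^ q ^ 3 -
              rt (k := k) X c₁ ^ q ^ 1)
            (m := P.ord (rt (k := k) X c₁))
            hy0 one_ne_zero ?_ ?_ ?_ ?_ (by linear_combination r) (by linear_combination r₁) ha
          · rw [one_mul, o0 _ hy0]
          · refine P.ge_mono (g2 _ _ gy) ?_
            linarith
          · exact P.ge_sub (P.ge_sub (P.ge_mono (g4 _ _ gx) a1) (P.ge_mono (g3 _ _ gx) a2))
              (P.ge_mono (g1 _ _ gx) a3)
          · exact P.ge_sub (P.ge_sub (P.ge_mono (g4 _ _ gy) a1) (P.ge_mono (g3 _ _ gy) a2))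
              (P.ge_mono (g1 _ _ gy) a3))
      rwa [finrank_bot, zero_add] at h1
  rw [Module.finrank_fin_fun] at hA3
  have d0 : Module.finrank F (W (F := F) P X 1) = 2 := by omega
  -- the plane
  obtain ⟨v, hv, hvm⟩ := build (F := F) (V := Fin 4 → F) 4
    (fun l => if l < 2 then W (F := F) P X 1 else ⊤)
    (by
      intro l hl
      show l < Module.finrank F
        (if l < 2 then W (F := F) P X 1 else ⊤ : Submodule F (Fin 4 → F))
      by_cases h2 : l < 2
      · rw [if_pos h2, d0]
        exact h2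
      · rw [if_neg h2, finrank_top, Module.finrank_fin_fun]
        exact hl) 4 le_rfl
  have v0 : v 0 ∈ W (F := F) P X 1 := by
    have h1 := hvm 0
    simpa using h1
  have v1 : v 1 ∈ W (F := F) P X 1 := by
    have h1 := hvm 1
    simpa using h1
  have hpair : LinearIndependent F ![v 0, v 1] := by
    rw [LinearIndependent.pair_iff]
    intro a b hab
    have h1 := Fintype.linearIndependent_iff.1 hv ![a, b, 0, 0] (by
      rw [Fin.sum_univ_four]
      simpa using hab)
    exact ⟨h1 0, h1 1⟩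
  have gpow : ∀ (x : L) (n : ℕ), P.Ge x 1 → P.Ge (x ^ q ^ n) 1 := by
    intro x n h
    refine P.ge_mono (N41.ge_pow P h (pow_ne_zero n hq0)) ?_
    have h1 : (1 : ℤ) ≤ ((q ^ n : ℕ) : ℤ) := by exact_mod_cast Nat.one_le_pow n q (by omega)
    linarith
  have hiso : v 0 ⬝ᵥ (M.mulVec (v 1)) = 0 := by
    have h1 := SCB.sB_sum ((algebraMap k L).comp (algebraMap F k)) hp hq hF 1 X M hMs (v 0) (v 1)
    have h2 : P.Ge (sB q 1 (rt (k := k) X (v 0)) (rt (k := k) X (v 1))) 1 := by
      have hx := (hW 1 _).1 v0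
      have hy := (hW 1 _).1 v1
      rw [SCB.sB_eq hp hq, one_mul]
      have hm : ∀ a b : L, P.Ge a 1 → P.Ge b 1 → P.Ge (a * b) 1 := by
        intro a b ha hb
        exact P.ge_mono (P.ge_mul ha hb) (by norm_num)
      exact P.ge_sub (P.ge_add (P.ge_sub (hm _ _ (gpow _ 2 hx) hy) (hm _ _ hx (gpow _ 2 hy)))
        (P.ge_sub (hm _ _ (gpow _ 3 hx) (gpow _ 1 hy)) (hm _ _ (gpow _ 1 hx) (gpow _ 3 hy))))
        (P.ge_sub (hm _ _ (gpow _ 2 hx) (gpow _ 1 hy)) (hm _ _ (gpow _ 1 hx) (gpow _ 2 hy)))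
    have h3 : sB q 1 (rt (k := k) X (v 0)) (rt (k := k) X (v 1)) =
        algebraMap k L (algebraMap F k (∑ i, ∑ j, v 0 i * M i j * v 1 j)) := h1
    rw [h3] at h2
    have h4 := coef1 P h2
    have h5 : ∑ i, ∑ j, v 0 i * M i j * v 1 j = 0 := (map_eq_zero (algebraMap F k)).1 h4
    rw [← h5]
    simp only [dotProduct, Matrix.mulVec, Finset.mul_sum]
    refine Finset.sum_congr rfl fun i _ => Finset.sum_congr rfl fun j _ => ?_
    ring
  obtain ⟨h, hh, hhM, hc0, hc1⟩ := (hSC0 F M hMdet hMt hMd).2 (v 0) (v 1) hpair hiso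
  obtain ⟨G₁, ρ₁, hR₁, hC₁, hG₁⟩ := SCB.basis p k F L f q t 1 t X G₀ ρ M h hp hch hq hF (by
      intro i
      rw [one_pow, one_mul, one_mul]
      exact hR i) hind htr hMs hMG hC hh hhM
  have hbas : ∀ c : Fin 4 → F,
      ∑ i, cst k F L (c i) * (∑ j, cst k F L (h j i) * X j) =
        rt (k := k) X (∑ i, c i • (fun j => h j i)) := fun c => rt_basis X (fun i j => h j i) c
  have hcols : LinearIndependent F (fun i : Fin 4 => fun j : Fin 4 => h j i) := by
    have h1 : IsUnit h.transpose := by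
      rw [Matrix.isUnit_iff_isUnit_det, Matrix.det_transpose]
      exact isUnit_iff_ne_zero.2 hh
    exact Matrix.linearIndependent_rows_iff_isUnit.2 h1
  have c0' : (fun j => h j 0) = v 0 := funext hc0
  have c1' : (fun j => h j 1) = v 1 := funext hc1
  have hcm : ∀ i : Fin 4, i.val < 2 → (fun j => h j i) ∈ W (F := F) P X 1 := by
    intro i hi
    have : i = 0 ∨ i = 1 := by
      fin_cases i
      · exact Or.inl rfl
      · exact Or.inr rfl
      · exact absurd hi (by decide)
      · exact absurd hi (by decide)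
    rcases this with rfl | rfl
    · rw [c0']
      exact v0
    · rw [c1']
      exact v1
  refine ⟨L, iL, iA, t, fun i => ∑ j, cst k F L (h j i) * X j, G₁, ρ₁, P, hR₁, hC₁, hG₁, hP, ?_, ?_⟩
  · intro c hc2 hc3 hc
    rw [← hsdef]
    show (s - 1) * P.ord (∑ i, cst k F L (c i) * (∑ j, cst k F L (h j i) * X j)) = -T
    rw [hbas c]
    have h1 : ∑ i, c i • (fun j => h j i) ∈ W (F := F) P X 1 := by
      refine Submodule.sum_mem _ fun j _ => ?_
      by_cases hj : j.val < 2
      · exact Submodule.smul_mem _ _ (hcm j hj)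
      · have hj' : c j = 0 := by
          fin_cases j
          · exact absurd (by decide) hj
          · exact absurd (by decide) hj
          · exact hc2
          · exact hc3
        rw [hj', zero_smul]
        exact Submodule.zero_mem _
    refine fK _ ?_ h1
    intro h0
    have h2 := Fintype.linearIndependent_iff.1 hcols c (hinj _ h0)
    rcases hc with hc | hc
    · exact hc (h2 0)
    · exact hc (h2 1)
  · intro c hc
    rw [← hsdef]
    show s * (s - 1) * P.ord (∑ i, cst k F L (c i) * (∑ j, cst k F L (h j i) * X j)) = T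
    rw [hbas c]
    refine (fN _ ?_).2.2
    intro h1
    have h2 := coord (s := 2) (by omega) (fun i : Fin 4 => fun j : Fin 4 => h j i) hcols
      (W (F := F) P X 1) d0 hcm c h1
    rcases hc with hc | hc
    · exact hc (h2 2 le_rfl)
    · exact hc (h2 3 (by decide))

end Pool.CND
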